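import Pool.Agent.Helper5.N2.Stmts2

/-! A1, A6: upper bound for `g` with a good exhaustion -/

set_option autoImplicit false

namespace N273
open N2

section
variable {m : ℕ} (N : Nt Sm m)

lemma re_im_of_cj {f : Sm} (h : cj f = f) (p : ℝ × ℝ) : ev p f = (((ev p f).re : ℝ) : ℂ) := by
  have h1 : (starRingEnd ℂ) (ev p f) = ev p f := by
    rw [← (ev p).hcj, h]
  exact (Complex.conj_eq_iff_re.1 h1).symm

lemma evF (p : ℝ × ℝ) : ev p N.F = ((∑ i, ‖ev p (N.A i)‖ ^ 2 : ℝ) : ℂ) := by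
  rw [← N.hAB, Ev.dot_cjv]

lemma evF_pos (p : ℝ × ℝ) : 0 < (ev p N.F).re := by
  have h0 := evF N p
  have h1 : (ev p N.F).re = ∑ i, ‖ev p (N.A i)‖ ^ 2 := by rw [h0, Complex.ofReal_re]
  have h2 : 0 ≤ (ev p N.F).re := by rw [h1]; positivity
  rcases h2.lt_or_eq with h | h
  · exact h
  · exfalso
    have h3 : ev p N.F = 0 := by
      rw [h0, ← h1, ← h]; simp
    have h4 : ev p (N.F * N.G) = 1 := by rw [N.hFG]; exact map_one _
    rw [map_mul] at h4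
    change ev p N.F * ev p N.G = 1 at h4
    rw [h3, zero_mul] at h4
    exact zero_ne_one h4

lemma evg_nonneg (p : ℝ × ℝ) : 0 ≤ (ev p N.g).re := by
  have h1 : ev p N.g = ((∑ i, ‖ev p (N.ps i)‖ ^ 2 : ℝ) : ℂ) := by
    have h2 : N.g = dot N.ps (cjv N.ps) := by rw [N.hpr]; rfl
    rw [h2, Ev.dot_cjv]
  rw [h1, Complex.ofReal_re]; positivity

/-- the basic differential inequality -/
lemma key (h1 : ST_G1) (h2 : ST_G2) (h4 : ST_G4) (p : ℝ × ℝ) :
    2 * N.k ^ 2 * (ev p N.F).re * (ev p N.g).re ^ 2 - 2 * N.k * (ev p N.F).re * (ev p N.g).re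
      ≤ (ev p (D' (D N.g))).re := by
  obtain ⟨-, hG, hg, -, hGF, -⟩ := h1 Sm m N
  obtain ⟨-, -, -, -, -, -, -, -, -, -, hDg, -⟩ := h2 Sm m N
  obtain ⟨hD'al, -⟩ := h4 Sm m N
  have e1 : D' (D N.g) = 2 * (N.V + N.q * N.q' * N.G - N.K * N.F * N.y * N.g) := by
    rw [hDg, D'_mul, D'_ofNat, zero_mul, zero_add, hD'al]
  have hV : ev p N.V = ((∑ i, ‖ev p (N.ta i)‖ ^ 2 : ℝ) : ℂ) := Ev.dot_cjv (ev p) N.ta
  have hq : ev p N.q' = (starRingEnd ℂ) (ev p N.q) := (ev p).hcj N.q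
  have hF := re_im_of_cj N.hFr p
  have hG' := re_im_of_cj hG p
  have hg' := re_im_of_cj hg p
  have hK : ev p N.K = (N.k : ℂ) := (ev p).hC _
  have hFp := evF_pos N p
  have hGF' : (ev p N.G).re * (ev p N.F).re = 1 := by
    have : ev p (N.G * N.F) = 1 := by rw [hGF]; exact map_one _
    rw [map_mul] at this
    change ev p N.G * ev p N.F = 1 at this
    rw [hF, hG'] at this
    exact_mod_cast this
  have hGp : 0 < (ev p N.G).re := by
    by_contra hcon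
    push Not at hcon
    nlinarith [mul_nonneg (neg_nonneg.2 hcon) hFp.le]
  have hy : ev p N.y = 1 - (N.k : ℂ) * ev p N.g := by
    show (ev p).h (1 - N.K * N.g) = _
    rw [map_sub, map_one, map_mul]
    change 1 - ev p N.K * ev p N.g = _
    rw [hK]
  have e2 : ev p (D' (D N.g)) = ((2 * ((∑ i, ‖ev p (N.ta i)‖ ^ 2) + ‖ev p N.q‖ ^ 2 * (ev p N.G).re
      - N.k * (ev p N.F).re * (1 - N.k * (ev p N.g).re) * (ev p N.g).re) : ℝ) : ℂ) := by
    rw [e1]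
    change (ev p).h (2 * (N.V + N.q * N.q' * N.G - N.K * N.F * N.y * N.g)) = _
    simp only [map_mul, map_add, map_sub, map_ofNat]
    change 2 * (ev p N.V + ev p N.q * ev p N.q' * ev p N.G
      - ev p N.K * ev p N.F * ev p N.y * ev p N.g) = _
    rw [hV, hq, hy, hK, Complex.mul_conj, Complex.normSq_eq_norm_sq]
    conv_lhs => rw [hF, hG', hg']
    push_cast
    ring
  rw [e2, Complex.ofReal_re]
  have h5 : 0 ≤ ∑ i, ‖ev p (N.ta i)‖ ^ 2 := by positivity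
  have h6 : 0 ≤ ‖ev p N.q‖ ^ 2 * (ev p N.G).re := by positivity
  nlinarith [h5, h6]

end

theorem st_A1 (hCY : ST_CY) (h1 : ST_G1) (h2 : ST_G2) (h4 : ST_G4) : ST_A1 := by
  intro m N hk hE p
  obtain ⟨f, κ, hκ, hf, hf0, hfc, hf1, hf2⟩ := hE
  obtain ⟨-, hG, hg, -⟩ := h1 Sm m N
  have hk2 : 0 < 2 * N.k ^ 2 := by positivity
  have := hCY N.g f N.F (2 * N.k ^ 2) (2 * N.k) κ hg hf N.hFr (evF_pos N) (evg_nonneg N) hk2
    (by positivity) hκ hf0 hfc hf1 hf2 (fun p => by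
      have h := key N h1 h2 h4 p
      nlinarith [h]) p
  refine this.trans (le_of_eq ?_)
  field_simp

theorem st_A6 (hCY : ST_CY) (h1 : ST_G1) (h2 : ST_G2) (h4 : ST_G4) : ST_A6 := by
  intro m N hk hE p
  obtain ⟨f, κ, hκ, hf, hf0, hfc, hf1, hf2⟩ := hE
  obtain ⟨-, hG, hg, -⟩ := h1 Sm m N
  have hk0 : N.k ≠ 0 := N.hk
  have hk2 : 0 < 2 * N.k ^ 2 := by positivity
  have := hCY N.g f N.F (2 * N.k ^ 2) 0 κ hg hf N.hFr (evF_pos N) (evg_nonneg N) hk2
    le_rfl hκ hf0 hfc hf1 hf2 (fun p => by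
      have h := key N h1 h2 h4 p
      have h5 := mul_nonneg (mul_nonneg (neg_nonneg.2 hk.le) (evF_pos N p).le) (evg_nonneg N p)
      nlinarith [h, h5]) p
  rw [zero_div] at this
  have h0 : (ev p N.g).re = 0 := le_antisymm this (evg_nonneg N p)
  rw [re_im_of_cj hg p, h0]; simp

end N273
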