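import Pool.Agent.Helper5.N2.Stmts2

/-! PER: a continuous doubly periodic function is bounded above -/

set_option autoImplicit false

namespace N273
open N2

theorem st_PER : ST_PER := by
  intro h ω1 ω2 hc hdet h1 h2
  have hp1 : Function.Periodic h ω1 := h1
  have hp2 : Function.Periodic h ω2 := h2
  -- the compact parallelogram
  let φ : ℝ × ℝ → ℝ × ℝ := fun s => s.1 • ω1 + s.2 • ω2
  have hφ : Continuous φ := by
    exact (continuous_fst.smul continuous_const).add (continuous_snd.smul continuous_const)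
  have hK : IsCompact (Set.Icc (0 : ℝ) 1 ×ˢ Set.Icc (0 : ℝ) 1) := isCompact_Icc.prod isCompact_Icc
  obtain ⟨M, hM⟩ := (hK.bddAbove_image ((hc.comp hφ).continuousOn))
  refine ⟨M, fun p => ?_⟩
  set d : ℝ := ω1.1 * ω2.2 - ω1.2 * ω2.1 with hd
  set a : ℝ := (p.1 * ω2.2 - p.2 * ω2.1) / d with ha
  set b : ℝ := (ω1.1 * p.2 - ω1.2 * p.1) / d with hb
  have hp : p = a • ω1 + b • ω2 := by
    ext
    · simp only [Prod.fst_add, Prod.smul_fst, smul_eq_mul, ha, hb]
      field_simp
      rw [hd]; ring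
    · simp only [Prod.snd_add, Prod.smul_snd, smul_eq_mul, ha, hb]
      field_simp
      rw [hd]; ring
  have hred : h p = h (φ (Int.fract a, Int.fract b)) := by
    have e : φ (Int.fract a, Int.fract b) = p - ⌊a⌋ • ω1 - ⌊b⌋ • ω2 := by
      show Int.fract a • ω1 + Int.fract b • ω2 = p - ⌊a⌋ • ω1 - ⌊b⌋ • ω2
      rw [← Int.self_sub_floor a, ← Int.self_sub_floor b, sub_smul, sub_smul, Int.cast_smul_eq_zsmul,
        Int.cast_smul_eq_zsmul]
      conv_rhs => rw [hp]
      abel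
    rw [e, hp2.sub_zsmul_eq, hp1.sub_zsmul_eq]
  rw [hred]
  exact hM ⟨(Int.fract a, Int.fract b), ⟨⟨Int.fract_nonneg a, (Int.fract_lt_one a).le⟩,
    ⟨Int.fract_nonneg b, (Int.fract_lt_one b).le⟩⟩, rfl⟩

end N273
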